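import Mathlib
import Pool.Agent.N254.FP.Sharp

/-! # Common fixed points of two multiplications: the optimal range

Put `g = gcd (p - 1, q - 1)`. For `1 < p < q` with `g ^ 2 ≥ C q` the common fixed points `k / g` of
`x ↦ p x` and `x ↦ q x` maximise the integral of every translate of a given smooth function with one
nondegenerate maximum over all jointly invariant probability measures, and only measures on common
fixed points do; and the first Fourier coefficients of all jointly invariant probability measures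
form exactly the polygon spanned by the `g`-th roots of unity. The order of the range is optimal:
for every odd `g ≥ 3` there are multiplicatively independent `p < q ≤ 3 g ^ 2` with
`gcd (p - 1, q - 1) = g` for which the set of first coefficients is strictly larger. -/

set_option autoImplicit false

open MeasureTheory

namespace Pool.Agent.Results.MP_96e181_an.OptimalFixedPoints

theorem result :
    -- ergodic optimisation of smooth functions
    (∀ (F : UnitAddCircle → ℝ) (x₀ : UnitAddCircle),
      ContDiff ℝ 2 (fun x : ℝ => F (x : UnitAddCircle)) →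
      (∀ y, y ≠ x₀ → F y < F x₀) →
      deriv (deriv fun x : ℝ => F (x₀ + (x : UnitAddCircle))) 0 < 0 →
      ∃ C : ℝ, ∀ p q : ℕ, 1 < p → p < q →
        C * (q : ℝ) ≤ (((p - 1).gcd (q - 1) : ℕ) : ℝ) ^ 2 →
        ∀ t : UnitAddCircle, ∃ z : UnitAddCircle, p • z = z ∧ q • z = z ∧
          ∀ μ : Measure UnitAddCircle, IsProbabilityMeasure μ →
            MeasurePreserving (fun x => p • x) μ μ → MeasurePreserving (fun x => q • x) μ μ →
            ∫ x, F (x - t) ∂μ ≤ F (z - t) ∧
              (∫ x, F (x - t) ∂μ = F (z - t) → ∀ᵐ x ∂μ, p • x = x ∧ q • x = x)) ∧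
    -- the set of first Fourier coefficients
    (∃ C : ℝ, ∀ p q : ℕ, 1 < p → p < q →
      C * (q : ℝ) ≤ (((p - 1).gcd (q - 1) : ℕ) : ℝ) ^ 2 →
      Irrational (Real.log p / Real.log q) ∧
      {c : ℂ | ∃ μ : Measure UnitAddCircle, IsProbabilityMeasure μ ∧
        MeasurePreserving (fun x => p • x) μ μ ∧ MeasurePreserving (fun x => q • x) μ μ ∧
        c = ∫ x, fourier 1 x ∂μ} = convexHull ℝ {z : ℂ | z ^ (p - 1).gcd (q - 1) = 1}) ∧
    -- the order of the range is optimal
    (∀ g : ℕ, Odd g → 3 ≤ g → ∃ p q : ℕ, 1 < p ∧ p < q ∧ q ≤ 3 * g ^ 2 ∧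
      (p - 1).gcd (q - 1) = g ∧ Irrational (Real.log p / Real.log q) ∧
      {c : ℂ | ∃ μ : Measure UnitAddCircle, IsProbabilityMeasure μ ∧
        MeasurePreserving (fun x => p • x) μ μ ∧ MeasurePreserving (fun x => q • x) μ μ ∧
        c = ∫ x, fourier 1 x ∂μ} ≠ convexHull ℝ {z : ℂ | z ^ g = 1}) := by
  refine ⟨?_, ?_, ?_⟩
  · intro F x₀ hF hmax hnd
    exact Pool.Agent.N254.FP.main2 F hF x₀ hmax hnd
  · obtain ⟨C, hC⟩ := Pool.Agent.N254.FP.polygon2
    refine ⟨max C 2, fun p q hp hpq h => ⟨?_, ?_⟩⟩
    · apply Pool.Agent.N254.FP.irrational_of_no_pow hp hpq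
      intro i j hi hij
      have h1 := Pool.Agent.Y315.CF.gcd_sq_le hp hpq hi hij
      have h2 : ((((p - 1).gcd (q - 1) : ℕ) : ℝ)) ^ 2 ≤ q := by exact_mod_cast h1
      have h3 : (0 : ℝ) < q := by exact_mod_cast (by omega : 0 < q)
      have h4 : 2 * (q : ℝ) ≤ max C 2 * q :=
        mul_le_mul_of_nonneg_right (le_max_right C 2) h3.le
      linarith
    · exact hC p q hp hpq
        ((mul_le_mul_of_nonneg_right (le_max_left C 2) (by positivity)).trans h)
  · intro g hodd hg
    refine ⟨4 * g + 1, 2 * g ^ 2 + g + 1, by omega, by nlinarith, by nlinarith,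
      Pool.Agent.N254.FP.gcd_pair g, ?_, ?_⟩
    · exact Pool.Agent.N254.FP.irrational_of_no_pow (by omega) (by nlinarith)
        (fun i j hi => Pool.Agent.N254.FP.no_pow hg hi)
    · have := Pool.Agent.N254.FP.sharp hodd hg
      rw [Pool.Agent.N254.FP.gcd_pair] at this
      exact this

end Pool.Agent.Results.MP_96e181_an.OptimalFixedPoints
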