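import Pool.Agent.N254.SP.Coding2
import Pool.Agent.N254.SP.Ind
import Pool.Agent.TH461.FGK.Cov

/-!
# Codings of rotations of compact abelian groups

No atomless measure on the circle invariant under multiplication by `p` and `q` can be obtained by
coding two commuting rotations of a finite-dimensional compact abelian group (a torus, the group of
`r`-adic integers, a product or an extension of such groups) by a map whose modulus of continuity in
the mean is polynomial (for instance a map of bounded variation on a torus, or a Hölder or Sobolev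
map).
-/

set_option autoImplicit false

open MeasureTheory Filter Topology

namespace Pool.Agent.Results.MP_96e181_an.RotationCodings

universe u

/-- At the scale `h`: the group `K` is covered by at most `C h ^ (-D)` balls of radius `h`, and the
translates of `φ` by all `g` with `‖g‖ ≤ 2 h` are at mean distance at most `C h ^ s` from `φ`. -/
def PolynomialScale {K : Type u} [NormedAddCommGroup K] [MeasurableSpace K] (m : Measure K)
    (φ : K → UnitAddCircle) (C D s h : ℝ) : Prop :=
  (∃ F : Finset K, (F.card : ℝ) ≤ C * h ^ (-D) ∧ ∀ g : K, ∃ f ∈ F, ‖g - f‖ ≤ h) ∧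
    ∀ g : K, ‖g‖ ≤ 2 * h → ∫ y, ‖φ (y + g) - φ y‖ ∂m ≤ C * h ^ s

/-- **Codings of rotations.** Let `p, q ≥ 2` be multiplicatively independent. There is
`0 ≤ κ₀ < 1`, with `κ₀ = 0` if `p, q` are products of powers of two coprime integers (for instance
if `p, q` are coprime), such that the following holds. Let `K` be an abelian group with a
translation invariant distance and a translation invariant Borel probability measure `m`, and let
`φ : K → ℝ/ℤ` be measurable with `φ (y + α) = p φ (y)` and `φ (y + β) = q φ (y)` for almost all `y`.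
If every interval `[h₀ ^ C, h₀]` contains a scale `h` at which `K` is covered by `C h ^ (-D)` balls
and `φ` has the modulus of continuity `C h ^ s` in the mean, where `κ₀ C D < 2 s`, then `φ (y)` is a
rational point for almost all `y`. -/
theorem result (p q : ℕ) (hp : 2 ≤ p) (hq : 2 ≤ q)
    (hpq : Irrational (Real.log (p : ℝ) / Real.log (q : ℝ))) :
    ∃ κ₀ : ℝ, 0 ≤ κ₀ ∧ κ₀ < 1 ∧
      ((∃ u v a b c d : ℕ, 2 ≤ u ∧ 2 ≤ v ∧ Nat.Coprime u v ∧ p = u ^ a * v ^ b ∧
        q = u ^ c * v ^ d ∧ a * d ≠ b * c) → κ₀ = 0) ∧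
      ∀ (K : Type u) [NormedAddCommGroup K] [MeasurableSpace K] [BorelSpace K] (m : Measure K),
        IsProbabilityMeasure m → m.IsAddLeftInvariant →
        ∀ (φ : K → UnitAddCircle) (α β : K), Measurable φ →
          (∀ᵐ y ∂m, φ (y + α) = p • φ y) → (∀ᵐ y ∂m, φ (y + β) = q • φ y) →
          ∀ C D s : ℝ, 1 ≤ C → 0 < D → 0 < s → κ₀ * (C * D) < 2 * s →
            (∀ h₀ : ℝ, 0 < h₀ → h₀ ≤ 1 → ∃ h : ℝ, h₀ ^ C ≤ h ∧ h ≤ h₀ ∧
              PolynomialScale m φ C D s h) →
            ∀ᵐ y ∂m, ∃ n : ℕ, 1 ≤ n ∧ n • φ y = 0 := by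
  obtain ⟨κ₀, h0, h1, h2, hNC⟩ := Pool.Agent.TH461.FGK.nc hp hq hpq
  refine ⟨κ₀, h0, h1, fun h => h2 h, ?_⟩
  intro K _ _ _ m hm hinv φ α β hφ hα hβ C D s hC hD hs hDs hcov
  exact Pool.Agent.N254.SP.coding2 hp hq (Pool.Agent.N254.SP.ind_of_irr hp hq hpq) h0 hNC m hφ hα hβ
    hC hD hs hDs hcov

end Pool.Agent.Results.MP_96e181_an.RotationCodings
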