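import Pool.Agent.N254.UD.Per

/-!
Let `p, q ≥ 2` be coprime. All the rational numbers with small denominators at once: no orbit and no
invariant measure sees the points which are close, but not too close, to them.

In the language of continued fractions: if `q_k` is the last denominator of a convergent of `x` with
`q_k ≤ e ^ (c ε T / A)`, then, outside a set of `μ`-measure at most `ε`, the next denominator is not
of size between `e ^ T` and `e ^ (A T) / 2`, whatever the invariant measure `μ` is, if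
`T ≥ T₀ (A, ε)`.
-/

set_option autoImplicit false

open MeasureTheory

namespace Pool.Agent.Results.MP_96e181_an.SmallDenominators

/-- The points `x` such that `a ≤ ‖d x‖ ≤ b` for some integer `1 ≤ d ≤ H`: they are at distance between
`a / d` and `b / d` from some rational point of denominator `d`. -/
def Shell (H a b : ℝ) : Set UnitAddCircle :=
  {x | ∃ d : ℕ, 1 ≤ d ∧ (d : ℝ) ≤ H ∧ a ≤ ‖d • x‖ ∧ ‖d • x‖ ≤ b}

/-- **No mass near all the rational numbers of small denominator at once, at one scale.** Let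
`p, q ≥ 2` be coprime. There are `c, C > 0` such that:
1. for all `A ≥ 1`, `κ > 0`, all `N ≥ N₀ (A, κ)` and ALL points `x`, at most `C A κ N ^ 2` of the
   pairs `(i, j)` with `p ^ i q ^ j ≤ e ^ N` are such that
   `e ^ (-A κ N) ≤ ‖d p ^ i q ^ j x‖ ≤ e ^ (-κ N)` for some `1 ≤ d ≤ e ^ (c κ ^ 2 N)`;
2. for all `A ≥ 1`, `ε > 0`, all `T ≥ T₀ (A, ε)` and ALL probability measures `μ` invariant under
   `x ↦ p x` and `x ↦ q x`, the set of the points `x` such that
   `e ^ (-A T) ≤ ‖d x‖ ≤ e ^ (-T)` for some `1 ≤ d ≤ e ^ (c ε T / A)` has measure at most `ε`. -/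
theorem result (p q : ℕ) (hp : 2 ≤ p) (hq : 2 ≤ q) (hpq : Nat.Coprime p q) :
    ∃ c C : ℝ, 0 < c ∧ 0 < C ∧
      (∀ A κ : ℝ, 1 ≤ A → 0 < κ → ∃ N₀ : ℝ, ∀ N : ℝ, N₀ ≤ N → ∀ x : UnitAddCircle,
        ({u : ℕ × ℕ | ((p ^ u.1 * q ^ u.2 : ℕ) : ℝ) ≤ Real.exp N ∧
          (p ^ u.1 * q ^ u.2) • x ∈
            Shell (Real.exp (c * κ ^ 2 * N)) (Real.exp (-(A * κ * N))) (Real.exp (-(κ * N)))}.ncard :
          ℝ) ≤ C * A * κ * N ^ 2) ∧
      (∀ A ε : ℝ, 1 ≤ A → 0 < ε → ∃ T₀ : ℝ, ∀ T : ℝ, T₀ ≤ T → ∀ μ : Measure UnitAddCircle,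
        IsProbabilityMeasure μ → MeasurePreserving (fun x : UnitAddCircle => p • x) μ μ →
        MeasurePreserving (fun x : UnitAddCircle => q • x) μ μ →
          μ.real (Shell (Real.exp (c * ε / A * T)) (Real.exp (-(A * T))) (Real.exp (-T))) ≤ ε) := by
  obtain ⟨C, c1, hC, hc1, h1⟩ := Pool.Agent.N254.UD.pointB hp hq hpq
    (Pool.Agent.TH461.SST.Main.cluster hp hq hpq)
  obtain ⟨c2, hc2, h2⟩ := Pool.Agent.N254.UD.measB hp hq hpq
  refine ⟨min c1 c2, C, lt_min hc1 hc2, hC, ?_, ?_⟩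
  · intro A κ hA hκ
    obtain ⟨N₀, hN₀⟩ := h1 A κ hA hκ
    refine ⟨max N₀ 0, fun N hN x => ?_⟩
    refine le_trans ?_ (hN₀ N ((le_max_left _ _).trans hN) x)
    refine Nat.cast_le.2 (Set.ncard_le_ncard ?_
      (Pool.Agent.N254.UD.cellsB_finite hp hq _ _ _ _ _))
    rintro u ⟨hu1, d, hd1, hd2, hd3⟩
    refine ⟨?_, d, hd1, hd2.trans (Real.exp_le_exp.2 ?_), hd3⟩
    · have h3 : Real.log ((p ^ u.1 * q ^ u.2 : ℕ) : ℝ) = (u.1 : ℝ) * Real.log p +
          (u.2 : ℝ) * Real.log q := by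
        push_cast
        rw [Real.log_mul (by positivity) (by positivity), Real.log_pow, Real.log_pow]
      rw [← h3]
      exact (Real.log_le_iff_le_exp (by positivity)).2 hu1
    · have hN0 : 0 ≤ N := (le_max_right _ _).trans hN
      have h4 : min c1 c2 ≤ c1 := min_le_left _ _
      gcongr
  · intro A ε hA hε
    obtain ⟨T₀, hT₀⟩ := h2 A ε hA hε
    refine ⟨max T₀ 0, fun T hT μ hμ hμp hμq => ?_⟩
    refine le_trans ?_ (hT₀ T ((le_max_left _ _).trans hT) μ hμ hμp hμq)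
    refine measureReal_mono ?_
    rintro x ⟨d, hd1, hd2, hd3⟩
    refine ⟨d, hd1, hd2.trans (Real.exp_le_exp.2 ?_), hd3⟩
    have hT0 : 0 ≤ T := (le_max_right _ _).trans hT
    have h4 : min c1 c2 ≤ c2 := min_le_right _ _
    have hA0 : 0 < A := by linarith
    gcongr

end Pool.Agent.Results.MP_96e181_an.SmallDenominators
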