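import Pool.Agent.N254.WS.Final

/-!
Let `p, q ≥ 2` be coprime. Equidistribution of `n x` along the multiplicative windows
`{n = p ^ a * q ^ b : X ≤ n < H X}`: the exact Hausdorff dimension of the set of the points with few
equidistributed windows, its packing version, and the version for arbitrary measures.
-/

set_option autoImplicit false

open MeasureTheory Filter Topology

namespace Pool.Agent.Results.MP_96e181_an.WindowSpectrum

open Classical in
/-- The window of the numbers `n = p ^ a * q ^ b` with `X ≤ n < Y`. -/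
noncomputable def window (p q : ℕ) (X Y : ℝ) : Finset ℕ :=
  (Finset.range ⌈Y⌉₊).filter fun n => (∃ a b : ℕ, n = p ^ a * q ^ b) ∧ X ≤ n

open Classical in
/-- The number of the `n` in the window such that `n x` lies in the closed arc of centre `c` and
radius `r`. -/
noncomputable def visits (p q : ℕ) (X Y : ℝ) (x c : UnitAddCircle) (r : ℝ) : ℕ :=
  ((window p q X Y).filter fun n => ‖n • x - c‖ ≤ r).card

/-- The window is not empty and the frequency with which `n x`, `n` in the window, visits an arc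
differs from the length of the arc by at most `ε`, for all arcs. -/
def Equidistributed (p q : ℕ) (X Y ε : ℝ) (x : UnitAddCircle) : Prop :=
  (window p q X Y).Nonempty ∧ ∀ c : UnitAddCircle, ∀ r : ℝ, 0 ≤ r → r ≤ 1 / 2 →
    |(visits p q X Y x c r : ℝ) - 2 * r * (window p q X Y).card| ≤ ε * (window p q X Y).card

/-- The number of the `k < n` such that the orbit of `x` is `ε`-equidistributed in the window
`2 ^ k ≤ n < H 2 ^ k`. -/
noncomputable def good (p q : ℕ) (H ε : ℝ) (n : ℕ) (x : UnitAddCircle) : ℕ :=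
  {k : ℕ | k < n ∧ Equidistributed p q (2 ^ k) (H * 2 ^ k) ε x}.ncard

/-- **The spectrum of the equidistributed windows.** Let `p, q ≥ 2` be coprime.
1. (Exact dimension.) For `0 ≤ s ≤ 1` the set of the points `x` for which there are `ε > 0` and
  arbitrarily large `H` such that the lower frequency of the `k` with an `ε`-equidistributed window
  `2 ^ k ≤ n < H 2 ^ k` is less than `s` has Hausdorff dimension `s`; and so does its subset where
  this holds for some `ε > 0` and all `H ≥ q`.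
2. (The sharp covering behind it.) For `ε > 0`, `0 ≤ s < s'` and all large `H`:
  (a) the points for which infinitely often at most `s n` of the first `n` windows are
  `ε`-equidistributed form a set of Hausdorff dimension at most `s'`;
  (b) the points for which, for all large `n`, at most `s n` of the first `n` windows are
  `ε`-equidistributed form a set of packing dimension at most `s'` (it is covered by countably many
  sets of upper box dimension at most `s'`);
  (c) if `ν` is any measure on the circle with `ν (B (x, 2 ^ (-n))) ≤ 2 ^ (-s' n)` for all large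
  `n`, for `ν`-almost all `x`, then for `ν`-almost all `x` and all large `n` more than `s n` of the
  first `n` windows are `ε`-equidistributed;
  (d) if this bound of `ν` holds for infinitely many `n` only, so does the conclusion. -/
theorem result (p q : ℕ) (hp : 2 ≤ p) (hq : 2 ≤ q) (hpq : Nat.Coprime p q) :
    (∀ s : ℝ, 0 ≤ s → s ≤ 1 →
      dimH {x : UnitAddCircle | ∃ ε : ℝ, 0 < ε ∧ ∀ H₀ : ℕ, ∃ H : ℕ, H₀ ≤ H ∧
        liminf (fun n : ℕ => (good p q H ε n x : ℝ) / n) atTop < s} = ENNReal.ofReal s ∧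
      dimH {x : UnitAddCircle | ∃ ε : ℝ, 0 < ε ∧ ∀ H : ℝ, (q : ℝ) ≤ H →
        liminf (fun n : ℕ => (good p q H ε n x : ℝ) / n) atTop < s} = ENNReal.ofReal s) ∧
    (∀ ε : ℝ, 0 < ε → ∀ s s' : ℝ, 0 ≤ s → s < s' → ∃ H₀ : ℝ, 1 < H₀ ∧ ∀ H : ℝ, H₀ ≤ H →
      dimH {x : UnitAddCircle | ∃ᶠ n : ℕ in atTop, (good p q H ε n x : ℝ) ≤ s * n} ≤
        ENNReal.ofReal s' ∧
      (∃ E : ℕ → Set UnitAddCircle,
        {x : UnitAddCircle | ∀ᶠ n : ℕ in atTop, (good p q H ε n x : ℝ) ≤ s * n} ⊆ ⋃ i, E i ∧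
        ∀ i, ∃ C : ℝ, ∀ n : ℕ, ∃ F : Finset UnitAddCircle, (F.card : ℝ) ≤ C * (2 : ℝ) ^ (s' * n) ∧
          ∀ x ∈ E i, ∃ y ∈ F, ‖x - y‖ ≤ (1 / 2 : ℝ) ^ n) ∧
      (∀ ν : Measure UnitAddCircle,
        (∀ᵐ x ∂ν, ∀ᶠ n : ℕ in atTop,
          ν (Metric.closedBall x ((1 / 2 : ℝ) ^ n)) ≤ ENNReal.ofReal ((2 : ℝ) ^ (-(s' * n)))) →
        ∀ᵐ x ∂ν, ∀ᶠ n : ℕ in atTop, s * n < good p q H ε n x) ∧
      (∀ ν : Measure UnitAddCircle,
        (∀ᵐ x ∂ν, ∃ᶠ n : ℕ in atTop,
          ν (Metric.closedBall x ((1 / 2 : ℝ) ^ n)) ≤ ENNReal.ofReal ((2 : ℝ) ^ (-(s' * n)))) →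
        ∀ᵐ x ∂ν, ∃ᶠ n : ℕ in atTop, s * n < good p q H ε n x)) := by
  have hirr := Pool.Agent.W764.SH.irr_of_coprime hp hq hpq
  have hsub : ∀ s : ℝ, {x : UnitAddCircle | ∃ ε : ℝ, 0 < ε ∧ ∀ H : ℝ, (q : ℝ) ≤ H →
      liminf (fun n : ℕ => (good p q H ε n x : ℝ) / n) atTop < s} ⊆
      {x : UnitAddCircle | ∃ ε : ℝ, 0 < ε ∧ ∀ H₀ : ℕ, ∃ H : ℕ, H₀ ≤ H ∧
        liminf (fun n : ℕ => (good p q H ε n x : ℝ) / n) atTop < s} := by
    rintro s x ⟨ε, hε, hx⟩
    exact ⟨ε, hε, fun H₀ => ⟨max H₀ q, le_max_left _ _, hx _ (by push_cast; exact le_max_right _ _)⟩⟩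
  refine ⟨fun s hs0 hs1 => ?_, fun ε hε s s' hs hss => ?_⟩
  · have h1 := Pool.Agent.N254.WS.dim_upper hp hq hpq hs0
    have h2 := Pool.Agent.N254.WS.dim_lower hp hq hirr hs1
    exact ⟨le_antisymm h1 (h2.trans (dimH_mono (hsub s))),
      le_antisymm ((dimH_mono (hsub s)).trans h1) h2⟩
  · obtain ⟨s'', h1, h2⟩ := exists_between hss
    obtain ⟨H₀, hH₀, h⟩ := Pool.Agent.N254.WS.cover hp hq hpq hε hs h1
    refine ⟨H₀, hH₀, fun H hH => ?_⟩
    obtain ⟨n0, hn0⟩ := h H hH
    have hn0' : ∀ n : ℕ, n0 ≤ n → ∃ F : Finset UnitAddCircle, (F.card : ℝ) ≤ (2 : ℝ) ^ (s' * n) ∧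
        ∀ x : UnitAddCircle, (Pool.Agent.N254.WS.cnt p q H ε n x : ℝ) ≤ s * n →
          ∃ y ∈ F, ‖x - y‖ ≤ (1 / 2 : ℝ) ^ n := by
      intro n hn
      obtain ⟨F, hF1, hF2⟩ := hn0 n hn
      refine ⟨F, hF1.trans (Real.rpow_le_rpow_of_exponent_le (by norm_num) ?_), hF2⟩
      exact mul_le_mul_of_nonneg_right h2.le (Nat.cast_nonneg _)
    exact ⟨Pool.Agent.N254.WS.dim_le (by linarith) hn0',
      Pool.Agent.N254.WS.packing (by linarith) hn0',
      fun ν hν => Pool.Agent.N254.WS.ae_lower h2 hn0 ν hν,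
      fun ν hν => Pool.Agent.N254.WS.ae_upper h2 hn0 ν hν⟩

end Pool.Agent.Results.MP_96e181_an.WindowSpectrum
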